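import Mathlib

/-!
# Square-free sets have many well separated columns
-/

namespace Pool.Agent.Helper52.VC

open Finset

/-- no axis-parallel square -/
def NoSq (A : Set (ℕ × ℕ)) : Prop :=
  ∀ x y d : ℕ, 0 < d → (x, y) ∈ A → (x + d, y) ∈ A → (x, y + d) ∈ A → (x + d, y + d) ∉ A

theorem count {N : ℕ} {A : Finset (ℕ × ℕ)} (hA : NoSq (A : Set (ℕ × ℕ))) {C B : Finset ℕ}
    (hC : C ⊆ Icc 1 N) (hB : B ⊆ Icc 1 N) :
    (C.card * B.card) ^ 2 ≤ 2 * N * (C.card * B.card +
      4 * (((C ×ˢ B).filter (fun p => p ∉ A)).card * C.card)) := by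
  classical
  obtain ⟨P, hP⟩ : ∃ P, P = C ×ˢ B := ⟨_, rfl⟩
  obtain ⟨bad, hbad⟩ : ∃ bad, bad = P.filter (fun p => p ∉ A) := ⟨_, rfl⟩
  rw [← hP, ← hbad]
  obtain ⟨g, hg⟩ : ∃ g : ℕ × ℕ → ℕ, ∀ p, g p = p.1 + N - p.2 := ⟨_, fun _ => rfl⟩
  have hPmem : ∀ p ∈ P, p.1 ∈ C ∧ p.2 ∈ B ∧ 1 ≤ p.1 ∧ p.1 ≤ N ∧ 1 ≤ p.2 ∧ p.2 ≤ N := by
    intro p hp
    rw [hP, mem_product] at hp
    have h1 := mem_Icc.1 (hC hp.1)
    have h2 := mem_Icc.1 (hB hp.2)
    exact ⟨hp.1, hp.2, h1.1, h1.2, h2.1, h2.2⟩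
  have hgr : ∀ p ∈ P, g p ∈ range (2 * N) := by
    intro p hp
    obtain ⟨_, _, h1, h2, h3, h4⟩ := hPmem p hp
    rw [hg, mem_range]
    omega
  obtain ⟨Q, hQ⟩ : ∃ Q, Q = (P ×ˢ P).filter (fun w => g w.1 = g w.2) := ⟨_, rfl⟩
  -- the pairs on one diagonal
  have hQc : Q.card = ∑ t ∈ range (2 * N), (P.filter (fun p => g p = t)).card ^ 2 := by
    rw [card_eq_sum_card_fiberwise (f := fun w => g w.1) (t := range (2 * N))]
    · refine sum_congr rfl fun t _ => ?_
      rw [sq, ← card_product]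
      congr 1
      ext w
      simp only [hQ, mem_filter, mem_product]
      constructor
      · rintro ⟨⟨⟨h1, h2⟩, h3⟩, h4⟩
        exact ⟨⟨h1, h4⟩, h2, by rw [← h3]; exact h4⟩
      · rintro ⟨⟨h1, h2⟩, h3, h4⟩
        exact ⟨⟨⟨h1, h3⟩, by rw [h2, h4]⟩, h2⟩
    · intro w hw
      rw [hQ, coe_filter] at hw
      exact mem_coe.2 (hgr w.1 (mem_product.1 hw.1).1)
  have hPc : P.card = ∑ t ∈ range (2 * N), (P.filter (fun p => g p = t)).card :=
    card_eq_sum_card_fiberwise (fun p hp => mem_coe.2 (hgr p (mem_coe.1 hp)))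
  have h1 : P.card ^ 2 ≤ 2 * N * Q.card := by
    rw [hQc, hPc]
    have := sq_sum_le_card_mul_sum_sq (s := range (2 * N))
      (f := fun t => (P.filter (fun p => g p = t)).card)
    rw [card_range] at this
    exact this
  have hQmem : ∀ w ∈ Q, w.1 ∈ P ∧ w.2 ∈ P ∧ g w.1 = g w.2 := by
    intro w hw
    rw [hQ, mem_filter, mem_product] at hw
    exact ⟨hw.1.1, hw.1.2, hw.2⟩
  -- covering
  have hcov : Q ⊆ Q.filter (fun w => w.1 = w.2) ∪ (Q.filter (fun w => w.1 ∈ bad) ∪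
      (Q.filter (fun w => w.2 ∈ bad) ∪ (Q.filter (fun w => (w.1.1, w.2.2) ∈ bad) ∪
      Q.filter (fun w => (w.2.1, w.1.2) ∈ bad)))) := by
    intro w hw
    obtain ⟨hw1, hw2, hw3⟩ := hQmem w hw
    obtain ⟨a1, a2, a3, a4, a5, a6⟩ := hPmem _ hw1
    obtain ⟨b1, b2, b3, b4, b5, b6⟩ := hPmem _ hw2
    by_contra hcon
    simp only [mem_union, mem_filter, hw, true_and, not_or] at hcon
    obtain ⟨h1, h2, h3, h4, h5⟩ := hcon
    have hmem : ∀ p ∈ P, p ∉ bad → p ∈ A := by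
      intro p hp hpb
      by_contra h
      exact hpb (by rw [hbad, mem_filter]; exact ⟨hp, h⟩)
    have c1 := hmem _ hw1 h2
    have c2 := hmem _ hw2 h3
    have c3 := hmem (w.1.1, w.2.2) (by rw [hP, mem_product]; exact ⟨a1, b2⟩) h4
    have c4 := hmem (w.2.1, w.1.2) (by rw [hP, mem_product]; exact ⟨b1, a2⟩) h5
    rw [hg, hg] at hw3
    rcases lt_trichotomy w.1.1 w.2.1 with h | h | h
    · have e1 : w.2.1 = w.1.1 + (w.2.1 - w.1.1) := by omega
      have e2 : w.2.2 = w.1.2 + (w.2.1 - w.1.1) := by omega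
      refine hA w.1.1 w.1.2 (w.2.1 - w.1.1) (by omega) c1 ?_ ?_ ?_
      · rw [← e1]; exact c4
      · rw [← e2]; exact c3
      · rw [← e1, ← e2]; exact c2
    · apply h1
      refine Prod.ext h ?_
      omega
    · have e1 : w.1.1 = w.2.1 + (w.1.1 - w.2.1) := by omega
      have e2 : w.1.2 = w.2.2 + (w.1.1 - w.2.1) := by omega
      refine hA w.2.1 w.2.2 (w.1.1 - w.2.1) (by omega) c2 ?_ ?_ ?_
      · rw [← e1]; exact c3
      · rw [← e2]; exact c4
      · rw [← e1, ← e2]; exact c1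
  -- the five parts
  have hd : (Q.filter (fun w => w.1 = w.2)).card ≤ P.card := by
    refine card_le_card_of_injOn (fun w => w.1) ?_ ?_
    · intro w hw
      rw [coe_filter] at hw
      exact mem_coe.2 (hQmem w hw.1).1
    · intro w hw w' hw' h
      rw [coe_filter] at hw hw'
      have e1 : w.1 = w'.1 := h
      exact Prod.ext e1 (by rw [← hw.2, ← hw'.2]; exact e1)
  have hbC : (bad ×ˢ C).card = bad.card * C.card := card_product _ _
  have k1 : (Q.filter (fun w => w.1 ∈ bad)).card ≤ bad.card * C.card := by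
    rw [← hbC]
    refine card_le_card_of_injOn (fun w => (w.1, w.2.1)) ?_ ?_
    · intro w hw
      rw [coe_filter] at hw
      rw [mem_coe, mem_product]
      exact ⟨hw.2, (hPmem _ (hQmem w hw.1).2.1).1⟩
    · intro w hw w' hw' h
      rw [coe_filter] at hw hw'
      obtain ⟨p1, p2, p3⟩ := hQmem w hw.1
      obtain ⟨q1, q2, q3⟩ := hQmem w' hw'.1
      have r1 := hPmem _ p1
      have r2 := hPmem _ p2
      have r3 := hPmem _ q1
      have r4 := hPmem _ q2
      rw [hg, hg] at p3 q3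
      simp only [Prod.mk.injEq] at h
      obtain ⟨h1, h2⟩ := h
      rw [h1] at p3 r1
      refine Prod.ext h1 (Prod.ext h2 ?_)
      omega
  have k2 : (Q.filter (fun w => w.2 ∈ bad)).card ≤ bad.card * C.card := by
    rw [← hbC]
    refine card_le_card_of_injOn (fun w => (w.2, w.1.1)) ?_ ?_
    · intro w hw
      rw [coe_filter] at hw
      rw [mem_coe, mem_product]
      exact ⟨hw.2, (hPmem _ (hQmem w hw.1).1).1⟩
    · intro w hw w' hw' h
      rw [coe_filter] at hw hw'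
      obtain ⟨p1, p2, p3⟩ := hQmem w hw.1
      obtain ⟨q1, q2, q3⟩ := hQmem w' hw'.1
      have r1 := hPmem _ p1
      have r2 := hPmem _ p2
      have r3 := hPmem _ q1
      have r4 := hPmem _ q2
      rw [hg, hg] at p3 q3
      simp only [Prod.mk.injEq] at h
      obtain ⟨h1, h2⟩ := h
      rw [h1] at p3 r2
      refine Prod.ext (Prod.ext h2 ?_) h1
      omega
  have k3 : (Q.filter (fun w => (w.1.1, w.2.2) ∈ bad)).card ≤ bad.card * C.card := by
    rw [← hbC]
    refine card_le_card_of_injOn (fun w => ((w.1.1, w.2.2), w.2.1)) ?_ ?_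
    · intro w hw
      rw [coe_filter] at hw
      rw [mem_coe, mem_product]
      exact ⟨hw.2, (hPmem _ (hQmem w hw.1).2.1).1⟩
    · intro w hw w' hw' h
      rw [coe_filter] at hw hw'
      obtain ⟨p1, p2, p3⟩ := hQmem w hw.1
      obtain ⟨q1, q2, q3⟩ := hQmem w' hw'.1
      have r1 := hPmem _ p1
      have r2 := hPmem _ p2
      have r3 := hPmem _ q1
      have r4 := hPmem _ q2
      rw [hg, hg] at p3 q3
      simp only [Prod.mk.injEq] at h
      obtain ⟨⟨h1, h2⟩, h3⟩ := h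
      refine Prod.ext (Prod.ext h1 ?_) (Prod.ext h3 h2)
      omega
  have k4 : (Q.filter (fun w => (w.2.1, w.1.2) ∈ bad)).card ≤ bad.card * C.card := by
    rw [← hbC]
    refine card_le_card_of_injOn (fun w => ((w.2.1, w.1.2), w.1.1)) ?_ ?_
    · intro w hw
      rw [coe_filter] at hw
      rw [mem_coe, mem_product]
      exact ⟨hw.2, (hPmem _ (hQmem w hw.1).1).1⟩
    · intro w hw w' hw' h
      rw [coe_filter] at hw hw'
      obtain ⟨p1, p2, p3⟩ := hQmem w hw.1
      obtain ⟨q1, q2, q3⟩ := hQmem w' hw'.1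
      have r1 := hPmem _ p1
      have r2 := hPmem _ p2
      have r3 := hPmem _ q1
      have r4 := hPmem _ q2
      rw [hg, hg] at p3 q3
      simp only [Prod.mk.injEq] at h
      obtain ⟨⟨h1, h2⟩, h3⟩ := h
      refine Prod.ext (Prod.ext h3 h2) (Prod.ext h1 ?_)
      omega
  have h2 : Q.card ≤ P.card + 4 * (bad.card * C.card) := by
    refine (card_le_card hcov).trans ?_
    have u1 := card_union_le (Q.filter (fun w => w.1 = w.2)) (Q.filter (fun w => w.1 ∈ bad) ∪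
      (Q.filter (fun w => w.2 ∈ bad) ∪ (Q.filter (fun w => (w.1.1, w.2.2) ∈ bad) ∪
      Q.filter (fun w => (w.2.1, w.1.2) ∈ bad))))
    have u2 := card_union_le (Q.filter (fun w => w.1 ∈ bad))
      (Q.filter (fun w => w.2 ∈ bad) ∪ (Q.filter (fun w => (w.1.1, w.2.2) ∈ bad) ∪
      Q.filter (fun w => (w.2.1, w.1.2) ∈ bad)))
    have u3 := card_union_le (Q.filter (fun w => w.2 ∈ bad))
      (Q.filter (fun w => (w.1.1, w.2.2) ∈ bad) ∪ Q.filter (fun w => (w.2.1, w.1.2) ∈ bad))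
    have u4 := card_union_le (Q.filter (fun w => (w.1.1, w.2.2) ∈ bad))
      (Q.filter (fun w => (w.2.1, w.1.2) ∈ bad))
    omega
  have hPcard : P.card = C.card * B.card := by rw [hP, card_product]
  rw [← hPcard]
  exact h1.trans (Nat.mul_le_mul_left _ h2)

end Pool.Agent.Helper52.VC
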