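import Pool.Agent.Helper52.VC.Pack
import Pool.Agent.Helper52.NG.Unif

/-!
# Sets without axis-parallel squares and divergent sums have large VC dimension
-/

namespace Pool.Agent.Helper52.VC

open Finset

open Classical in
/-- the columns of `A ∩ [N]²` -/
noncomputable def cols (A : Set (ℕ × ℕ)) (N : ℕ) : Finset (Finset ℕ) :=
  (Icc 1 N).image (fun x => (Icc 1 N).filter (fun y => (x, y) ∈ A))

theorem cols_bx (A : Set (ℕ × ℕ)) (j : ℕ) :
    (Icc 1 (2 ^ j)).image (col (NG.bx A j) (2 ^ j)) = cols A (2 ^ j) := by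
  classical
  unfold cols
  refine image_congr fun x hx => ?_
  have hx' : x ∈ Icc 1 (2 ^ j) := mem_coe.1 hx
  unfold col
  ext y
  rw [mem_filter, mem_filter]
  constructor
  · rintro ⟨h1, h2⟩
    exact ⟨h1, NG.bx_mem h2⟩
  · rintro ⟨h1, h2⟩
    refine ⟨h1, ?_⟩
    unfold NG.bx
    rw [mem_filter, mem_product]
    exact ⟨⟨hx', h1⟩, h2⟩

theorem inf_vc (A : Set (ℕ × ℕ)) (f : ℕ → ℝ) (hA : ∀ p ∈ A, 0 < p.1 ∧ 0 < p.2) (hf : Monotone f)
    (hf1 : ∀ n, 1 ≤ f n)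
    (hns : ¬ Summable (fun p : A => f (max p.1.1 p.1.2) / ((p.1.1 : ℝ) ^ 2 + (p.1.2 : ℝ) ^ 2)))
    (hsq : NoSq A) (N₀ : ℕ) : ∃ N : ℕ, N₀ ≤ N ∧
      1 / 64 * (Real.log N / Real.log (f N * Real.log N)) ≤ ((cols A N).vcDim : ℝ) + 1 := by
  classical
  obtain ⟨j, hj, hcard⟩ := NG.freqf A hA f hf hf1 (fun j => 1 / (j : ℝ) ^ 2)
    (fun j => by positivity) (Real.summable_one_div_nat_pow.2 (by norm_num)) hns (N₀ + 21)
  have hj3 : (21 : ℝ) ≤ j := by exact_mod_cast (by omega : 21 ≤ j)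
  have hjpos : (0 : ℝ) < j := by linarith
  have hfN := hf1 (2 ^ j)
  obtain ⟨F, hF⟩ : ∃ F : ℝ, F = f (2 ^ j) := ⟨_, rfl⟩
  rw [← hF] at hfN hcard
  have hδ : 1 / ((j : ℝ) ^ 2 * F) * (((2 ^ j : ℕ) : ℝ)) ^ 2 ≤ (NG.bx A j).card := by
    rw [div_mul_eq_mul_div, one_mul, ← div_div, div_le_iff₀ (by linarith)]
    refine le_trans (le_of_eq ?_) hcard.le
    push_cast
    ring
  have hsq' : NoSq (NG.bx A j : Set (ℕ × ℕ)) := by
    intro x y d hd h1 h2 h3 h4
    exact hsq x y d hd (NG.bx_mem (mem_coe.1 h1)) (NG.bx_mem (mem_coe.1 h2))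
      (NG.bx_mem (mem_coe.1 h3)) (NG.bx_mem (mem_coe.1 h4))
  have hmain := fin_vc (NG.bx_sub A j) hsq' (by positivity) (by positivity) hδ
  rw [cols_bx] at hmain
  have hlog2 := Real.log_two_gt_d9
  have hlog2' := Real.log_two_lt_d9
  have hlogN : Real.log ((2 ^ j : ℕ) : ℝ) = j * Real.log 2 := by
    push_cast
    rw [Real.log_pow]
  obtain ⟨l, hl⟩ : ∃ l : ℝ, l = Real.log ((2 ^ j : ℕ) : ℝ) := ⟨_, rfl⟩
  have hl1 : 2 / 3 * j ≤ l := by
    rw [hl, hlogN]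
    nlinarith
  have hl2 : 14 ≤ l := by linarith
  rw [← hl] at hmain
  obtain ⟨D, hD⟩ : ∃ D : ℕ, D = (cols A (2 ^ j)).vcDim := ⟨_, rfl⟩
  rw [← hD] at hmain
  have hjN : j < 2 ^ j := Nat.lt_two_pow_self
  refine ⟨2 ^ j, by omega, ?_⟩
  rw [← hl, ← hF, ← hD]
  obtain ⟨u, hu⟩ : ∃ u : ℝ, u = F * l := ⟨_, rfl⟩
  have hul : l ≤ u := by rw [hu]; nlinarith
  have hu14 : 14 ≤ u := by linarith
  obtain ⟨G, hG⟩ : ∃ G : ℝ, G = Real.log u := ⟨_, rfl⟩
  have hGpos : 0 < G := by rw [hG]; exact Real.log_pos (by linarith)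
  rw [← hu, ← hG]
  have hD0 : (0 : ℝ) ≤ D := by positivity
  rcases le_or_gt G (l / 16) with hGl | hGl
  · -- the main case
    have hjF : (j : ℝ) ^ 2 * F ≤ u ^ 4 := by
      have h1 : (j : ℝ) ^ 2 ≤ 9 / 4 * l ^ 2 := by nlinarith
      have h2 : 9 / 4 * l ^ 2 ≤ l ^ 4 := by
        have e1 : (196 : ℝ) ≤ l ^ 2 := by nlinarith
        have e2 : l ^ 4 = l ^ 2 * l ^ 2 := by ring
        rw [e2]
        exact mul_le_mul_of_nonneg_right (by linarith) (by positivity)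
      have h3 : F ≤ F ^ 4 := le_self_pow₀ hfN (by norm_num)
      calc (j : ℝ) ^ 2 * F ≤ l ^ 4 * F ^ 4 :=
            mul_le_mul (h1.trans h2) h3 (by linarith) (by positivity)
        _ = u ^ 4 := by rw [hu]; ring
    have hjF0 : 0 < (j : ℝ) ^ 2 * F := by positivity
    have hup : 100 * l / (1 / ((j : ℝ) ^ 2 * F)) ^ 2 + 2 ≤ u ^ 16 := by
      have h1 : 100 * l / (1 / ((j : ℝ) ^ 2 * F)) ^ 2 = 100 * l * ((j : ℝ) ^ 2 * F) ^ 2 := by
        field_simp
      have h2 : ((j : ℝ) ^ 2 * F) ^ 2 ≤ (u ^ 4) ^ 2 := pow_le_pow_left₀ hjF0.le hjF 2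
      have h3 : 100 * l * ((j : ℝ) ^ 2 * F) ^ 2 ≤ 100 * u * (u ^ 4) ^ 2 :=
        mul_le_mul (by linarith) h2 (by positivity) (by positivity)
      have h4 : (1 : ℝ) ≤ u ^ 9 := one_le_pow₀ (by linarith)
      have h5 : (14 : ℝ) ^ 7 ≤ u ^ 7 := pow_le_pow_left₀ (by norm_num) hu14 7
      have h6 : (102 : ℝ) ≤ u ^ 7 := by
        refine le_trans ?_ h5
        norm_num
      have h7 : 102 * u ^ 9 ≤ u ^ 7 * u ^ 9 := mul_le_mul_of_nonneg_right h6 (by positivity)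
      have h8 : 100 * u * (u ^ 4) ^ 2 = 100 * u ^ 9 := by ring
      have h9 : u ^ 7 * u ^ 9 = u ^ 16 := by ring
      rw [h1]
      linarith
    have hlow : Real.exp (l / 4) ≤ (1 / ((j : ℝ) ^ 2 * F)) ^ 2 * ((2 ^ j : ℕ) : ℝ) / 32 := by
      have h1 : ((j : ℝ) ^ 2 * F) ^ 2 ≤ Real.exp (l / 2) := by
        have h2 : ((j : ℝ) ^ 2 * F) ^ 2 ≤ (u ^ 4) ^ 2 := pow_le_pow_left₀ hjF0.le hjF 2
        refine h2.trans ?_
        have h3 : u = Real.exp G := by rw [hG, Real.exp_log (by linarith)]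
        rw [h3, ← Real.exp_nat_mul, ← Real.exp_nat_mul]
        apply Real.exp_le_exp.2
        push_cast
        linarith
      have h2 : ((2 ^ j : ℕ) : ℝ) = Real.exp l := by
        rw [hl, Real.exp_log (by positivity)]
      have h3 : (32 : ℝ) ≤ Real.exp (7 / 2) := by
        rw [← Real.log_le_iff_le_exp (by norm_num)]
        have h4 : (32 : ℝ) = 2 ^ 5 := by norm_num
        rw [h4, Real.log_pow]
        push_cast
        linarith
      have h4 : (32 : ℝ) ≤ Real.exp (l / 4) := h3.trans (Real.exp_le_exp.2 (by linarith))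
      have h5 : (1 / ((j : ℝ) ^ 2 * F)) ^ 2 * ((2 ^ j : ℕ) : ℝ) / 32 =
          Real.exp l / (((j : ℝ) ^ 2 * F) ^ 2 * 32) := by
        rw [h2]
        field_simp
      rw [h5, le_div_iff₀ (by positivity)]
      calc Real.exp (l / 4) * (((j : ℝ) ^ 2 * F) ^ 2 * 32)
          ≤ Real.exp (l / 4) * (Real.exp (l / 2) * Real.exp (l / 4)) := by
            apply mul_le_mul_of_nonneg_left _ (Real.exp_pos _).le
            exact mul_le_mul h1 h4 (by norm_num) (Real.exp_pos _).le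
        _ = Real.exp l := by
            rw [← Real.exp_add, ← Real.exp_add]
            congr 1
            ring
    have h1 : Real.exp (l / 4) ≤ (u ^ 16) ^ D :=
      hlow.trans (hmain.trans (pow_le_pow_left₀ (by positivity) hup D))
    have h2 : l / 4 ≤ D * (16 * G) := by
      have h3 := (Real.le_log_iff_exp_le (by positivity)).2 h1
      rw [Real.log_pow, Real.log_pow, ← hG] at h3
      push_cast at h3
      exact h3
    have h3 : 1 / 64 * (l / G) ≤ D := by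
      rw [mul_div_assoc', div_le_iff₀ hGpos]
      linarith
    linarith
  · have h1 : 1 / 64 * (l / G) ≤ 1 := by
      rw [mul_div_assoc', div_le_iff₀ hGpos]
      linarith
    linarith

end Pool.Agent.Helper52.VC
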