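import Pool.Agent.Helper52.VC.Sep

/-!
# Packing: separated families of small Vapnik-Chervonenkis dimension
-/

namespace Pool.Agent.Helper52.VC

open Finset

theorem sum_choose_le (s D : ℕ) : ∑ i ∈ range (D + 1), s.choose i ≤ (s + 1) ^ D := by
  rw [add_pow]
  refine sum_le_sum fun i hi => ?_
  rw [one_pow, mul_one]
  have h1 : s.choose i ≤ s ^ i := Nat.choose_le_pow s i
  have h2 : 1 ≤ D.choose i := Nat.choose_pos (by
    rw [mem_range] at hi
    omega)
  exact h1.trans (Nat.le_mul_of_pos_right _ h2)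

theorem sauer (𝒜 : Finset (Finset ℕ)) (S : Finset ℕ) :
    (𝒜.image (fun u => u ∩ S)).card ≤ (S.card + 1) ^ 𝒜.vcDim := by
  classical
  refine (card_le_card_shatterer _).trans ?_
  have h1 : (𝒜.image (fun u => u ∩ S)).shatterer ⊆
      (range (𝒜.vcDim + 1)).biUnion (fun i => powersetCard i S) := by
    intro T hT
    rw [mem_shatterer] at hT
    have hTS : T ⊆ S := by
      obtain ⟨u, hu, h⟩ := hT.exists_superset
      rw [mem_image] at hu
      obtain ⟨v, _, rfl⟩ := hu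
      exact h.trans inter_subset_right
    have hTA : 𝒜.Shatters T := by
      intro t ht
      obtain ⟨u, hu, h⟩ := hT ht
      rw [mem_image] at hu
      obtain ⟨v, hv, rfl⟩ := hu
      refine ⟨v, hv, ?_⟩
      rw [← h]
      ext y
      simp only [mem_inter]
      constructor
      · rintro ⟨h1, h2⟩
        exact ⟨h1, h2, hTS h1⟩
      · rintro ⟨h1, h2, _⟩
        exact ⟨h1, h2⟩
    rw [mem_biUnion]
    refine ⟨T.card, ?_, ?_⟩
    · rw [mem_range]
      have := hTA.card_le_vcDim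
      omega
    · rw [mem_powersetCard]
      exact ⟨hTS, rfl⟩
  refine (card_le_card h1).trans (card_biUnion_le.trans ?_)
  simp only [card_powersetCard]
  exact sum_choose_le _ _

theorem sample {N : ℕ} (hN : 0 < N) (F : ℕ → Finset ℕ) (X : Finset ℕ) {ρ : ℝ}
    (hF : ∀ x ∈ X, F x ⊆ Icc 1 N)
    (hsep : ∀ x ∈ X, ∀ x' ∈ X, x ≠ x' → ρ * N < ((symmDiff (F x) (F x')).card : ℝ)) (s : ℕ)
    (hs : (X.card : ℝ) ^ 2 * Real.exp (-(ρ * s)) < 1) :
    ∃ S : Finset ℕ, S.card ≤ s ∧ Set.InjOn (fun x => F x ∩ S) (X : Set ℕ) := by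
  classical
  have hN' : (0 : ℝ) < N := by exact_mod_cast hN
  obtain ⟨Z, hZ⟩ : ∃ Z, Z = Fintype.piFinset (fun _ : Fin s => Icc 1 N) := ⟨_, rfl⟩
  obtain ⟨W, hW⟩ : ∃ W : ℕ × ℕ → Finset (Fin s → ℕ), ∀ w, W w =
      Fintype.piFinset (fun _ : Fin s => Icc 1 N \ symmDiff (F w.1) (F w.2)) := ⟨_, fun _ => rfl⟩
  have hZc : Z.card = N ^ s := by
    rw [hZ, Fintype.card_piFinset, prod_const, Nat.card_Icc, card_univ, Fintype.card_fin,
      Nat.add_sub_cancel]
  have hWc : ∀ w ∈ X.offDiag, ((W w).card : ℝ) ≤ Real.exp (-(ρ * s)) * (N : ℝ) ^ s := by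
    intro w hw
    rw [mem_offDiag] at hw
    obtain ⟨h1, h2, h3⟩ := hw
    have hsub : symmDiff (F w.1) (F w.2) ⊆ Icc 1 N := by
      intro y hy
      rw [mem_symmDiff] at hy
      rcases hy with hy | hy
      · exact hF _ h1 hy.1
      · exact hF _ h2 hy.1
    rw [hW, Fintype.card_piFinset, prod_const, card_univ, Fintype.card_fin,
      card_sdiff_of_subset hsub, Nat.card_Icc, Nat.add_sub_cancel]
    have h4 := hsep _ h1 _ h2 h3
    have h5 := card_le_card hsub
    rw [Nat.card_Icc, Nat.add_sub_cancel] at h5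
    rw [Nat.cast_pow, Nat.cast_sub h5]
    have h6 : (N : ℝ) - (symmDiff (F w.1) (F w.2)).card ≤ Real.exp (-ρ) * N := by
      have h7 : 1 - ρ ≤ Real.exp (-ρ) := by
        have := Real.add_one_le_exp (-ρ)
        linarith
      have h8 := mul_le_mul_of_nonneg_right h7 hN'.le
      linarith
    have h7 : (0 : ℝ) ≤ (N : ℝ) - (symmDiff (F w.1) (F w.2)).card := by
      have : ((symmDiff (F w.1) (F w.2)).card : ℝ) ≤ N := by exact_mod_cast h5
      linarith
    refine (pow_le_pow_left₀ h7 h6 s).trans (le_of_eq ?_)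
    rw [mul_pow, ← Real.exp_nat_mul]
    congr 2
    ring
  have hex : ∃ z ∈ Z, z ∉ X.offDiag.biUnion W := by
    by_contra hcon
    push Not at hcon
    have h1 : Z ⊆ X.offDiag.biUnion W := hcon
    have h2 := (card_le_card h1).trans card_biUnion_le
    rw [hZc] at h2
    have h3 : (N : ℝ) ^ s ≤ ∑ w ∈ X.offDiag, ((W w).card : ℝ) := by exact_mod_cast h2
    have h4 : ∑ w ∈ X.offDiag, ((W w).card : ℝ) ≤
        X.offDiag.card * (Real.exp (-(ρ * s)) * (N : ℝ) ^ s) := by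
      rw [← nsmul_eq_mul]
      exact sum_le_card_nsmul _ _ _ hWc
    have h5 : (X.offDiag.card : ℝ) ≤ (X.card : ℝ) ^ 2 := by
      have h6 : X.offDiag.card ≤ X.card ^ 2 := by
        rw [offDiag_card, sq]
        exact Nat.sub_le _ _
      exact_mod_cast h6
    have h6 : (0 : ℝ) < (N : ℝ) ^ s := by positivity
    have h7 : (X.offDiag.card : ℝ) * (Real.exp (-(ρ * s)) * (N : ℝ) ^ s) ≤
        (X.card : ℝ) ^ 2 * (Real.exp (-(ρ * s)) * (N : ℝ) ^ s) :=
      mul_le_mul_of_nonneg_right h5 (by positivity)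
    have h8 : (X.card : ℝ) ^ 2 * (Real.exp (-(ρ * s)) * (N : ℝ) ^ s) < 1 * (N : ℝ) ^ s := by
      rw [← mul_assoc]
      exact mul_lt_mul_of_pos_right hs h6
    linarith
  obtain ⟨z, hz, hzW⟩ := hex
  refine ⟨univ.image z, ?_, ?_⟩
  · refine card_image_le.trans ?_
    rw [card_univ, Fintype.card_fin]
  · intro x hx x' hx' h
    by_contra hne
    have h1 : z ∉ W (x, x') := by
      intro h2
      exact hzW (mem_biUnion.2 ⟨(x, x'), mem_offDiag.2 ⟨hx, hx', hne⟩, h2⟩)
    rw [hW, Fintype.mem_piFinset] at h1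
    push Not at h1
    obtain ⟨i, hi⟩ := h1
    have hzi : z i ∈ Icc 1 N := by
      rw [hZ, Fintype.mem_piFinset] at hz
      exact hz i
    have h2 : z i ∈ symmDiff (F x) (F x') := by
      by_contra h3
      exact hi (mem_sdiff.2 ⟨hzi, h3⟩)
    have h3 : z i ∈ univ.image z := mem_image_of_mem _ (mem_univ i)
    have h : F x ∩ univ.image z = F x' ∩ univ.image z := h
    rw [mem_symmDiff] at h2
    rcases h2 with ⟨h4, h5⟩ | ⟨h4, h5⟩
    · apply h5
      have h6 : z i ∈ F x ∩ univ.image z := mem_inter.2 ⟨h4, h3⟩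
      rw [h] at h6
      exact (mem_inter.1 h6).1
    · apply h5
      have h6 : z i ∈ F x' ∩ univ.image z := mem_inter.2 ⟨h4, h3⟩
      rw [← h] at h6
      exact (mem_inter.1 h6).1

/-- **The finite inequality.** -/
theorem fin_vc {N : ℕ} {A : Finset (ℕ × ℕ)} (hA : A ⊆ Icc 1 N ×ˢ Icc 1 N)
    (hsq : NoSq (A : Set (ℕ × ℕ))) (hN : 0 < N) {δ : ℝ} (hδ : 0 < δ)
    (hδA : δ * (N : ℝ) ^ 2 ≤ A.card) :
    δ ^ 2 * N / 32 ≤ (100 * Real.log N / δ ^ 2 + 2) ^ ((Icc 1 N).image (col A N)).vcDim := by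
  classical
  have hN' : (0 : ℝ) < N := by exact_mod_cast hN
  have hN1 : (1 : ℝ) ≤ N := by exact_mod_cast hN
  have hlogN : 0 ≤ Real.log N := Real.log_nonneg hN1
  obtain ⟨X, hX, hXcard, hXsep⟩ := sep hA hsq hN hδ hδA
  obtain ⟨ρ, hρ⟩ : ∃ ρ : ℝ, ρ = δ ^ 2 / 50 := ⟨_, rfl⟩
  have hρ0 : 0 < ρ := by rw [hρ]; positivity
  rw [← hρ] at hXsep
  obtain ⟨s, hs⟩ : ∃ s : ℕ, s = ⌊2 * Real.log N / ρ⌋₊ + 1 := ⟨_, rfl⟩
  have hs1 : 2 * Real.log N / ρ < s := by
    rw [hs]
    push_cast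
    exact Nat.lt_floor_add_one _
  have hs2 : (s : ℝ) ≤ 2 * Real.log N / ρ + 1 := by
    rw [hs]
    push_cast
    have := Nat.floor_le (by positivity : 0 ≤ 2 * Real.log N / ρ)
    linarith
  have hXN : (X.card : ℝ) ≤ N := by
    have h1 := card_le_card hX
    rw [Nat.card_Icc, Nat.add_sub_cancel] at h1
    exact_mod_cast h1
  have hexp : (X.card : ℝ) ^ 2 * Real.exp (-(ρ * s)) < 1 := by
    have h1 : Real.exp (-(ρ * s)) < Real.exp (-(2 * Real.log N)) := by
      apply Real.exp_lt_exp.2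
      rw [div_lt_iff₀ hρ0] at hs1
      linarith
    have h2 : Real.exp (-(2 * Real.log N)) = 1 / (N : ℝ) ^ 2 := by
      rw [Real.exp_neg, two_mul, Real.exp_add, Real.exp_log hN', sq, one_div]
    have h3 : (X.card : ℝ) ^ 2 ≤ (N : ℝ) ^ 2 := pow_le_pow_left₀ (by positivity) hXN 2
    calc (X.card : ℝ) ^ 2 * Real.exp (-(ρ * s)) ≤ (N : ℝ) ^ 2 * Real.exp (-(ρ * s)) :=
          mul_le_mul_of_nonneg_right h3 (Real.exp_pos _).le
      _ < (N : ℝ) ^ 2 * (1 / (N : ℝ) ^ 2) := by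
          rw [← h2]
          exact mul_lt_mul_of_pos_left h1 (by positivity)
      _ = 1 := by field_simp
  obtain ⟨S, hS, hinj⟩ := sample hN (col A N) X (fun x _ => filter_subset _ _) hXsep s hexp
  have h1 : X.card ≤ (s + 1) ^ ((Icc 1 N).image (col A N)).vcDim := by
    have h2 : X.card = (X.image (fun x => col A N x ∩ S)).card := (card_image_of_injOn hinj).symm
    have h3 : X.image (fun x => col A N x ∩ S) ⊆
        ((Icc 1 N).image (col A N)).image (fun u => u ∩ S) := by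
      intro t ht
      rw [mem_image] at ht
      obtain ⟨x, hx, rfl⟩ := ht
      exact mem_image_of_mem _ (mem_image_of_mem _ (hX hx))
    rw [h2]
    refine (card_le_card h3).trans ((sauer _ S).trans ?_)
    exact Nat.pow_le_pow_left (by omega) _
  have h2 : (X.card : ℝ) ≤ ((s : ℝ) + 1) ^ ((Icc 1 N).image (col A N)).vcDim := by
    exact_mod_cast h1
  refine hXcard.trans (h2.trans (pow_le_pow_left₀ (by positivity) ?_ _))
  have h3 : 2 * Real.log N / ρ = 100 * Real.log N / δ ^ 2 := by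
    rw [hρ]
    field_simp
    ring
  linarith

end Pool.Agent.Helper52.VC
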