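import Pool.Agent.Helper52.VC.Core

/-!
# A large family of separated columns
-/

namespace Pool.Agent.Helper52.VC

open Finset

/-- the column of `A` over `x`, inside `[N]` -/
def col (A : Finset (ℕ × ℕ)) (N x : ℕ) : Finset ℕ := (Icc 1 N).filter (fun y => (x, y) ∈ A)

theorem card_eq_sum_col {A : Finset (ℕ × ℕ)} {N : ℕ} (hA : A ⊆ Icc 1 N ×ˢ Icc 1 N) :
    A.card = ∑ x ∈ Icc 1 N, (col A N x).card := by
  classical
  rw [card_eq_sum_card_fiberwise (f := fun p => p.1) (t := Icc 1 N)]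
  · refine sum_congr rfl fun x _ => ?_
    refine card_bij (fun p _ => p.2) ?_ ?_ ?_
    · intro p hp
      rw [mem_filter] at hp
      have h1 := mem_product.1 (hA hp.1)
      unfold col
      rw [mem_filter]
      refine ⟨h1.2, ?_⟩
      rw [← hp.2]
      exact hp.1
    · intro p hp q hq h
      rw [mem_filter] at hp hq
      exact Prod.ext (by rw [hp.2, hq.2]) h
    · intro y hy
      unfold col at hy
      rw [mem_filter] at hy
      exact ⟨(x, y), by rw [mem_filter]; exact ⟨hy.2, rfl⟩, rfl⟩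
  · intro p hp
    exact mem_coe.2 (mem_product.1 (hA (mem_coe.1 hp))).1

/-- **Separated columns.** -/
theorem sep {N : ℕ} {A : Finset (ℕ × ℕ)} (hA : A ⊆ Icc 1 N ×ˢ Icc 1 N)
    (hsq : NoSq (A : Set (ℕ × ℕ))) (hN : 0 < N) {δ : ℝ} (hδ : 0 < δ)
    (hδA : δ * (N : ℝ) ^ 2 ≤ A.card) :
    ∃ X : Finset ℕ, X ⊆ Icc 1 N ∧ δ ^ 2 * N / 32 ≤ X.card ∧
      ∀ x ∈ X, ∀ x' ∈ X, x ≠ x' →
        δ ^ 2 / 50 * N < (symmDiff (col A N x) (col A N x')).card := by
  classical
  have hN' : (0 : ℝ) < N := by exact_mod_cast hN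
  obtain ⟨R, hR⟩ : ∃ R, R = (Icc 1 N).filter (fun x => δ * N / 2 ≤ ((col A N x).card : ℝ)) :=
    ⟨_, rfl⟩
  have hRsub : R ⊆ Icc 1 N := by rw [hR]; exact filter_subset _ _
  have hcol : ∀ x, (col A N x).card ≤ N := by
    intro x
    have h1 : col A N x ⊆ Icc 1 N := filter_subset _ _
    have h2 := card_le_card h1
    rw [Nat.card_Icc, Nat.add_sub_cancel] at h2
    exact h2
  -- many rich columns
  have hRcard : δ * N / 2 ≤ R.card := by
    have h1 : (A.card : ℝ) = ∑ x ∈ Icc 1 N, ((col A N x).card : ℝ) := by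
      rw [card_eq_sum_col hA]
      push_cast
      rfl
    have h2 := sum_filter_add_sum_filter_not (Icc 1 N)
      (fun x => δ * N / 2 ≤ ((col A N x).card : ℝ)) (fun x => ((col A N x).card : ℝ))
    have h3 : ∑ x ∈ (Icc 1 N).filter (fun x => δ * N / 2 ≤ ((col A N x).card : ℝ)),
        ((col A N x).card : ℝ) ≤ R.card * N := by
      rw [← hR, ← nsmul_eq_mul]
      exact sum_le_card_nsmul _ _ _ fun x _ => by exact_mod_cast hcol x
    have h4 : ∑ x ∈ (Icc 1 N).filter (fun x => ¬ δ * N / 2 ≤ ((col A N x).card : ℝ)),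
        ((col A N x).card : ℝ) ≤ N * (δ * N / 2) := by
      have h5 : ∑ x ∈ (Icc 1 N).filter (fun x => ¬ δ * N / 2 ≤ ((col A N x).card : ℝ)),
          ((col A N x).card : ℝ) ≤ ((Icc 1 N).filter
            (fun x => ¬ δ * N / 2 ≤ ((col A N x).card : ℝ))).card * (δ * N / 2) := by
        rw [← nsmul_eq_mul]
        refine sum_le_card_nsmul _ _ _ fun x hx => ?_
        rw [mem_filter, not_le] at hx
        exact hx.2.le
      refine h5.trans (mul_le_mul_of_nonneg_right ?_ (by positivity))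
      have h6 := card_filter_le (Icc 1 N) (fun x => ¬ δ * N / 2 ≤ ((col A N x).card : ℝ))
      rw [Nat.card_Icc, Nat.add_sub_cancel] at h6
      exact_mod_cast h6
    have h7 : δ * N / 2 * N ≤ R.card * N := by nlinarith
    exact le_of_mul_le_mul_right h7 hN'
  -- a maximal separated subset
  obtain ⟨ρ, hρ⟩ : ∃ ρ : ℝ, ρ = δ ^ 2 / 50 := ⟨_, rfl⟩
  have hρ0 : 0 < ρ := by rw [hρ]; positivity
  rw [← hρ]
  obtain ⟨Sp, hSp⟩ : ∃ Sp : Finset ℕ → Prop, ∀ X, Sp X ↔ ∀ x ∈ X, ∀ x' ∈ X, x ≠ x' →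
      ρ * N < ((symmDiff (col A N x) (col A N x')).card : ℝ) := ⟨_, fun _ => Iff.rfl⟩
  obtain ⟨F, hF⟩ : ∃ F : Finset (Finset ℕ), ∀ X, X ∈ F ↔ X ⊆ R ∧ Sp X :=
    ⟨R.powerset.filter Sp, fun X => by rw [mem_filter, mem_powerset]⟩
  have hFne : F.Nonempty := by
    refine ⟨∅, ?_⟩
    rw [hF, hSp]
    refine ⟨empty_subset _, ?_⟩
    intro x hx
    exact absurd hx (notMem_empty x)
  obtain ⟨X, hXF, hXmax⟩ := exists_max_image F card hFne
  rw [hF, hSp] at hXF
  obtain ⟨hXR, hXsep⟩ := hXF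
  refine ⟨X, hXR.trans hRsub, ?_, hXsep⟩
  have hnear : ∀ x ∈ R, ∃ x0 ∈ X, ((symmDiff (col A N x) (col A N x0)).card : ℝ) ≤ ρ * N := by
    intro x hx
    by_contra hcon
    push Not at hcon
    have hxX : x ∉ X := by
      intro h
      have h1 := hcon x h
      rw [symmDiff_self] at h1
      simp only [bot_eq_empty, card_empty, Nat.cast_zero] at h1
      have h2 : 0 < ρ * N := by positivity
      linarith
    have h1 : insert x X ∈ F := by
      rw [hF, hSp]
      refine ⟨insert_subset hx hXR, ?_⟩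
      intro a ha b hb hab
      rw [mem_insert] at ha hb
      rcases ha with rfl | ha
      · rcases hb with rfl | hb
        · exact absurd rfl hab
        · exact hcon b hb
      · rcases hb with rfl | hb
        · rw [symmDiff_comm]
          exact hcon a ha
        · exact hXsep a ha b hb hab
    have h2 := hXmax _ h1
    rw [card_insert_of_notMem hxX] at h2
    omega
  by_contra hcon
  push Not at hcon
  -- a large cluster
  obtain ⟨cl, hcl⟩ : ∃ cl : ℕ → Finset ℕ, ∀ x0, cl x0 = R.filter (fun x =>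
      ((symmDiff (col A N x) (col A N x0)).card : ℝ) ≤ ρ * N) := ⟨_, fun _ => rfl⟩
  have hRle : (R.card : ℝ) ≤ ∑ x0 ∈ X, ((cl x0).card : ℝ) := by
    have h1 : R ⊆ X.biUnion cl := by
      intro x hx
      obtain ⟨x0, hx0, h⟩ := hnear x hx
      rw [mem_biUnion]
      refine ⟨x0, hx0, ?_⟩
      rw [hcl, mem_filter]
      exact ⟨hx, h⟩
    have h2 := (card_le_card h1).trans card_biUnion_le
    exact_mod_cast h2
  obtain ⟨x0, hx0, hbig⟩ : ∃ x0 ∈ X, 16 / δ ≤ ((cl x0).card : ℝ) := by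
    by_contra hno
    push Not at hno
    have h1 : ∑ x0 ∈ X, ((cl x0).card : ℝ) ≤ X.card * (16 / δ) := by
      rw [← nsmul_eq_mul]
      exact sum_le_card_nsmul _ _ _ fun x hx => (hno x hx).le
    have h2 : δ * N / 2 ≤ X.card * (16 / δ) := hRcard.trans (hRle.trans h1)
    have h3 : (X.card : ℝ) * (16 / δ) < δ ^ 2 * N / 32 * (16 / δ) :=
      mul_lt_mul_of_pos_right hcon (by positivity)
    have h4 : δ ^ 2 * N / 32 * (16 / δ) = δ * N / 2 := by
      field_simp
      ring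
    linarith
  have hx0R : x0 ∈ R := hXR hx0
  obtain ⟨C, hC⟩ : ∃ C, C = cl x0 := ⟨_, rfl⟩
  obtain ⟨B, hB⟩ : ∃ B, B = col A N x0 := ⟨_, rfl⟩
  rw [← hC] at hbig
  have hCR : C ⊆ R := by rw [hC, hcl]; exact filter_subset _ _
  have hBsub : B ⊆ Icc 1 N := by rw [hB]; exact filter_subset _ _
  have hBcard : δ * N / 2 ≤ (B.card : ℝ) := by
    rw [hR, mem_filter] at hx0R
    rw [hB]
    exact hx0R.2
  have hcount := count hsq (hCR.trans hRsub) hBsub
  have hbad : (((C ×ˢ B).filter (fun p => p ∉ A)).card : ℝ) ≤ C.card * (ρ * N) := by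
    have h1 : ((C ×ˢ B).filter (fun p => p ∉ A)).card = ∑ x ∈ C,
        (((C ×ˢ B).filter (fun p => p ∉ A)).filter (fun p => p.1 = x)).card := by
      refine card_eq_sum_card_fiberwise ?_
      intro p hp
      exact mem_coe.2 (mem_product.1 (mem_filter.1 (mem_coe.1 hp)).1).1
    rw [h1]
    push_cast
    rw [← nsmul_eq_mul]
    refine sum_le_card_nsmul _ _ _ fun x hx => ?_
    have h2 : (((C ×ˢ B).filter (fun p => p ∉ A)).filter (fun p => p.1 = x)).card ≤
        (symmDiff (col A N x) (col A N x0)).card := by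
      refine card_le_card_of_injOn (fun p => p.2) ?_ ?_
      · intro p hp
        rw [mem_coe, mem_filter, mem_filter, mem_product] at hp
        obtain ⟨⟨⟨_, h3⟩, h4⟩, h5⟩ := hp
        rw [mem_coe, mem_symmDiff]
        right
        refine ⟨by rw [← hB]; exact h3, ?_⟩
        intro h6
        unfold col at h6
        rw [mem_filter] at h6
        apply h4
        have : p = (x, p.2) := Prod.ext h5 rfl
        rw [this]
        exact h6.2
      · intro p hp q hq h
        rw [mem_coe, mem_filter] at hp hq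
        exact Prod.ext (by rw [hp.2, hq.2]) h
    have h3 : (((symmDiff (col A N x) (col A N x0)).card : ℕ) : ℝ) ≤ ρ * N := by
      rw [hC, hcl, mem_filter] at hx
      exact hx.2
    have h4 : (((((C ×ˢ B).filter (fun p => p ∉ A)).filter (fun p => p.1 = x)).card : ℕ) : ℝ) ≤
        (((symmDiff (col A N x) (col A N x0)).card : ℕ) : ℝ) := by exact_mod_cast h2
    exact h4.trans h3
  -- the contradiction
  obtain ⟨a, ha⟩ : ∃ a : ℝ, a = C.card := ⟨_, rfl⟩
  obtain ⟨b, hb⟩ : ∃ b : ℝ, b = B.card := ⟨_, rfl⟩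
  obtain ⟨z, hz⟩ : ∃ z : ℝ, z = ((C ×ˢ B).filter (fun p => p ∉ A)).card := ⟨_, rfl⟩
  have hcount' : (a * b) ^ 2 ≤ 2 * N * (a * b + 4 * (z * a)) := by
    rw [ha, hb, hz]
    exact_mod_cast hcount
  rw [← ha, ← hz] at hbad
  rw [← ha] at hbig
  rw [← hb] at hBcard
  have ha0 : 0 < a := lt_of_lt_of_le (by positivity) hbig
  have hb0 : 0 < b := lt_of_lt_of_le (by positivity) hBcard
  have h1 : 8 * (N : ℝ) ≤ a * b := by
    have h2 : 16 / δ * (δ * N / 2) ≤ a * b := mul_le_mul hbig hBcard (by positivity) ha0.le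
    have h3 : 16 / δ * (δ * N / 2) = 8 * N := by
      field_simp
      ring
    linarith
  have h2 : (a * b) ^ 2 ≤ 2 * N * (a * b) + 8 * N * (a * (a * (ρ * N))) := by
    have h3 : z * a ≤ a * (ρ * N) * a := mul_le_mul_of_nonneg_right hbad ha0.le
    nlinarith
  have h3 : 2 * N * (a * b) ≤ (a * b) ^ 2 / 4 := by nlinarith [mul_pos ha0 hb0]
  have h4 : b ^ 2 * 3 / 4 ≤ 8 * ρ * (N : ℝ) ^ 2 := by
    have h5 : a ^ 2 * (b ^ 2 * 3 / 4) ≤ a ^ 2 * (8 * ρ * (N : ℝ) ^ 2) := by nlinarith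
    exact le_of_mul_le_mul_left h5 (by positivity)
  have h5 : (δ * N / 2) ^ 2 ≤ b ^ 2 := pow_le_pow_left₀ (by positivity) hBcard 2
  have h6 : 0 < δ ^ 2 * (N : ℝ) ^ 2 := by positivity
  rw [hρ] at h4
  nlinarith

end Pool.Agent.Helper52.VC
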